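import Pool.Agent.Helper85.MM.StmtsAP3

/-!
Project MM, block B1, row AP3_SDG: simultaneous diagonalization.
-/

namespace CM

open Matrix

theorem sdg_diag {n : ℕ} (A : Mt n) (hA : A.IsSymm) :
    ∃ (U : Mt n) (μ : Fin n → ℝ), U.transpose * U = 1 ∧ U.transpose * A * U = diagonal μ := by
  have hH : A.IsHermitian := by
    rw [Matrix.IsHermitian, Matrix.conjTranspose_eq_transpose_of_trivial]
    exact hA
  have h1 := hH.conjStarAlgAut_star_eigenvectorUnitary
  rw [Unitary.conjStarAlgAut_star_apply] at h1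
  have hst : ∀ M : Mt n, star M = M.transpose := fun M => by
    rw [Matrix.star_eq_conjTranspose, Matrix.conjTranspose_eq_transpose_of_trivial]
  have h2 : star (hH.eigenvectorUnitary : Mt n) * (hH.eigenvectorUnitary : Mt n) = 1 :=
    Unitary.coe_star_mul_self _
  rw [hst] at h1 h2
  refine ⟨(hH.eigenvectorUnitary : Mt n), hH.eigenvalues, h2, ?_⟩
  rw [h1]
  rfl

theorem sdg_col {n : ℕ} (a : ℝ) (G M : Mt n) (hG : LB a G) (j : Fin n) :
    a * ∑ i, M i j ^ 2 ≤ (M.transpose * G * M) j j := by
  have h1 := hG (fun i => M i j)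
  refine h1.trans (le_of_eq ?_)
  rw [Matrix.mul_apply]
  simp only [Matrix.mul_apply, Matrix.transpose_apply, Finset.sum_mul]
  rw [Finset.sum_comm]

theorem sdg_symm {n : ℕ} (S T : Mt n) (hT : T.IsSymm) : (S.transpose * T * S).IsSymm := by
  rw [Matrix.IsSymm, transpose_mul, transpose_mul, transpose_transpose, hT.eq, Matrix.mul_assoc]

theorem st_SDG : ST_SDG := by
  intro n a G T ha hG hGs hTs
  obtain ⟨U, μ, hU, hUG⟩ := sdg_diag G hGs
  have hμ : ∀ j, a ≤ μ j := by
    intro j
    have h1 := sdg_col a G U hG j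
    rw [hUG, diagonal_apply_eq] at h1
    have h2 : ∑ i, U i j ^ 2 = 1 := by
      have h3 := congrFun (congrFun hU j) j
      rw [Matrix.mul_apply, Matrix.one_apply_eq] at h3
      rw [← h3]
      exact Finset.sum_congr rfl fun i _ => by rw [Matrix.transpose_apply]; ring
    rw [h2, mul_one] at h1
    exact h1
  set D : Mt n := diagonal (fun j => (Real.sqrt (μ j))⁻¹) with hD
  set S : Mt n := U * D with hS
  have hDt : D.transpose = D := diagonal_transpose _
  have hSG : S.transpose * G * S = 1 := by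
    rw [hS, transpose_mul, hDt]
    have h1 : D * U.transpose * G * (U * D) = D * (U.transpose * G * U) * D := by
      simp only [Matrix.mul_assoc]
    rw [h1, hUG, hD, diagonal_mul_diagonal, diagonal_mul_diagonal, ← diagonal_one]
    refine congrArg diagonal (funext fun j => ?_)
    have h2 : 0 < μ j := lt_of_lt_of_le ha (hμ j)
    have h3 : Real.sqrt (μ j) ≠ 0 := (Real.sqrt_pos.2 h2).ne'
    have h4 : Real.sqrt (μ j) * Real.sqrt (μ j) = μ j := Real.mul_self_sqrt h2.le
    calc (Real.sqrt (μ j))⁻¹ * μ j * (Real.sqrt (μ j))⁻¹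
        = (Real.sqrt (μ j))⁻¹ * (Real.sqrt (μ j) * Real.sqrt (μ j)) * (Real.sqrt (μ j))⁻¹ := by
          rw [h4]
      _ = 1 := by field_simp
  have hBs : (S.transpose * T * S).IsSymm := sdg_symm S T hTs
  obtain ⟨Q, l, hQ, hQB⟩ := sdg_diag (S.transpose * T * S) hBs
  refine ⟨S * Q, l, ?_, ?_, ?_⟩
  · rw [transpose_mul]
    have h1 : Q.transpose * S.transpose * G * (S * Q)
        = Q.transpose * (S.transpose * G * S) * Q := by
      simp only [Matrix.mul_assoc]
    rw [h1, hSG, Matrix.mul_one, hQ]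
  · rw [transpose_mul, ← hQB]
    simp only [Matrix.mul_assoc]
  · intro j
    have h1 : (S * Q).transpose * G * (S * Q) = 1 := by
      rw [transpose_mul]
      have h2 : Q.transpose * S.transpose * G * (S * Q)
          = Q.transpose * (S.transpose * G * S) * Q := by
        simp only [Matrix.mul_assoc]
      rw [h2, hSG, Matrix.mul_one, hQ]
    have h3 := sdg_col a G (S * Q) hG j
    rw [h1, Matrix.one_apply_eq] at h3
    rw [le_div_iff₀ ha, mul_comm]
    exact h3

end CM
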